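import Pool.Agent.P.MP_84cbe7_co.Stair

namespace Pool.Agent.Results.MP_84cbe7_co.TreeCounterexample

open Pool.Agent.P.MP_84cbe7_co

/-- Disproof of Q1: a finite tree (the path with 18 vertices) and a configuration of pairwise
distinct points of `ℝ³` (a staircase along the three axes) whose amplitude has negative real part,
for every admissible choice of the spinors `ψ` and of `Δ` (and such choices exist). -/
theorem result :
    ∃ (n : ℕ) (T : SimpleGraph (Fin n)) (x : Fin n → EuclideanSpace ℝ (Fin 3)),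
      T.IsTree ∧ Function.Injective x ∧
      (∃ ψ Δ, IsSpinorLift T x ψ ∧ IsOrientation T Δ) ∧
      ∀ ψ Δ, IsSpinorLift T x ψ → IsOrientation T Δ → (amplitude T ψ Δ).re < 0 := by
  refine ⟨18, T 17, fun i => stair i.val, T_isTree 17,
    stair_injective.comp Fin.val_injective, ?_, fun ψ Δ hψ hΔ => ?_⟩
  · obtain ⟨ψ, hψ⟩ := exists_lift 17
    exact ⟨ψ, Δ₀ 17, hψ, Δ₀_orient⟩
  · rw [amp_eq hψ hΔ]
    exact amp17

end Pool.Agent.Results.MP_84cbe7_co.TreeCounterexample
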